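import Mathlib

/-!
# MP_101edf_co: the classes of equal excluded minors for `ℓ_p`-realizability
-/

set_option autoImplicit false

open Filter Topology Set
open scoped ENNReal

namespace Pool.Agent.Results.MP_101edf_co.ClassStructure

/-- The `p`-norm on `ℝ^k`, `1 ≤ p ≤ ∞`. -/
noncomputable def pnorm {k : ℕ} (p : ℝ≥0∞) (x : Fin k → ℝ) : ℝ :=
  ‖(WithLp.toLp p x : PiLp p fun _ : Fin k => ℝ)‖

/-- A finite simple graph. -/
abbrev FinGraph : Type := Σ n : ℕ, SimpleGraph (Fin n)

/-- The edge lengths that have to be realized, in two readings of distance functions: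
`Lengths true p n` are the semimetrics on `n` points (the reading of the problem file; the value of
`p` does not matter), `Lengths false p n` are the distance matrices of `n` points of some `ℓ_p^m`
(the reading of the source). -/
def Lengths (file : Bool) (p : ℝ≥0∞) (n : ℕ) : Set (Fin n → Fin n → ℝ) :=
  match file with
  | true => {e | (∀ u, e u u = 0) ∧ (∀ u v, e u v = e v u) ∧ ∀ u v w, e u w ≤ e u v + e v w}
  | false => {e | ∃ (m : ℕ) (r : Fin n → Fin m → ℝ), ∀ u v, e u v = pnorm p (r u - r v)}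

/-- `G` is realizable in `ℓ_p^k`: for all edge lengths `e` there are points `q v` of `ℓ_p^k` with
`‖q u - q v‖_p = e u v` for every edge `uv` of `G`. -/
def Realizable (file : Bool) (p : ℝ≥0∞) (k : ℕ) (G : FinGraph) : Prop :=
  ∀ e ∈ Lengths file p G.1, ∃ q : Fin G.1 → Fin k → ℝ,
    ∀ u v, G.2.Adj u v → pnorm p (q u - q v) = e u v

/-- `f_p(G) ≤ k`, where `f_p(G)` is the least `j` such that `G` is realizable in `ℓ_p^j`. -/
def DimLe (file : Bool) (p : ℝ≥0∞) (k : ℕ) (G : FinGraph) : Prop :=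
  ∃ j ≤ k, Realizable file p j G

/-- `H` is a minor of `G`: there are pairwise disjoint branch sets `φ = some h` (one for each
vertex `h` of `H`), each inducing a nonempty connected subgraph of `G`, such that the branch sets
of adjacent vertices of `H` are joined by an edge of `G`. -/
def IsMinor (H G : FinGraph) : Prop :=
  ∃ φ : Fin G.1 → Option (Fin H.1),
    (∀ h, (G.2.induce {v | φ v = some h}).Connected) ∧
    ∀ h h', H.2.Adj h h' → ∃ v v', φ v = some h ∧ φ v' = some h' ∧ G.2.Adj v v'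

/-- The excluded minors `ex(p, k)`: the graphs with `f_p > k` all of whose proper minors have
`f_p ≤ k`. -/
def ex (file : Bool) (p : ℝ≥0∞) (k : ℕ) : Set FinGraph :=
  {G | ¬ DimLe file p k G ∧ ∀ H, IsMinor H G → ¬ IsMinor G H → DimLe file p k H}

/-- The class of `p` in `[1, ∞]`: all `q` in `[1, ∞]` with `ex(q, k) = ex(p, k)`. -/
def cls (file : Bool) (k : ℕ) (p : ℝ≥0∞) : Set ℝ≥0∞ := {q | 1 ≤ q ∧ ex file q k = ex file p k}

/-- The excluded minors in `ex(p, k)` with at most `n` vertices. -/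
def exUpTo (file : Bool) (n : ℕ) (p : ℝ≥0∞) (k : ℕ) : Set FinGraph :=
  {G | G ∈ ex file p k ∧ G.1 ≤ n}

/-! ### The norm -/

theorem pnorm_top {k : ℕ} (x : Fin k → ℝ) : pnorm ⊤ x = ‖x‖ := by
  unfold pnorm
  rw [PiLp.norm_eq_ciSup]
  apply le_antisymm
  · exact Real.iSup_le (fun i => norm_le_pi_norm x i) (norm_nonneg x)
  · rw [pi_norm_le_iff_of_nonneg (Real.iSup_nonneg fun i => norm_nonneg _)]
    intro i
    exact le_ciSup (f := fun i => ‖(WithLp.toLp ⊤ x : PiLp ⊤ fun _ : Fin k => ℝ) i‖)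
      (Set.finite_range _).bddAbove i

theorem pnorm_fin {k : ℕ} {p : ℝ≥0∞} (hp : 1 ≤ p) (hpt : p ≠ ⊤) (x : Fin k → ℝ) :
    pnorm p x = (∑ i, |x i| ^ p.toReal) ^ (1 / p.toReal) := by
  have h : 0 < p.toReal := ENNReal.toReal_pos (one_pos.trans_le hp).ne' hpt
  unfold pnorm
  rw [PiLp.norm_eq_sum h]
  rfl

theorem norm_le_pnorm {k : ℕ} {p : ℝ≥0∞} (hp : 1 ≤ p) (x : Fin k → ℝ) : ‖x‖ ≤ pnorm p x := by
  by_cases hpt : p = ⊤
  · rw [hpt, pnorm_top]
  have h : 0 < p.toReal := ENNReal.toReal_pos (one_pos.trans_le hp).ne' hpt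
  rw [pnorm_fin hp hpt, pi_norm_le_iff_of_nonneg (by positivity)]
  intro i
  have h1 : |x i| = (|x i| ^ p.toReal) ^ (1 / p.toReal) := by
    rw [← Real.rpow_mul (abs_nonneg _), mul_one_div_cancel h.ne', Real.rpow_one]
  rw [Real.norm_eq_abs, h1]
  apply Real.rpow_le_rpow (by positivity) _ (by positivity)
  exact Finset.single_le_sum (f := fun i => |x i| ^ p.toReal) (fun j _ => by positivity)
    (Finset.mem_univ i)

theorem pnorm_le {k : ℕ} {p : ℝ≥0∞} (hp : 1 ≤ p) (x : Fin k → ℝ) :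
    pnorm p x ≤ ((k : ℝ) + 1) ^ (p⁻¹).toReal * ‖x‖ := by
  by_cases hpt : p = ⊤
  · rw [hpt, pnorm_top]
    simp
  have h : 0 < p.toReal := ENNReal.toReal_pos (one_pos.trans_le hp).ne' hpt
  rw [pnorm_fin hp hpt, ENNReal.toReal_inv, ← one_div]
  have h1 : ∑ i, |x i| ^ p.toReal ≤ ((k : ℝ) + 1) * ‖x‖ ^ p.toReal := by
    calc ∑ i, |x i| ^ p.toReal ≤ ∑ _i : Fin k, ‖x‖ ^ p.toReal := by
          apply Finset.sum_le_sum
          intro i _
          exact Real.rpow_le_rpow (abs_nonneg _) (norm_le_pi_norm x i) h.le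
      _ = (k : ℝ) * ‖x‖ ^ p.toReal := by simp
      _ ≤ ((k : ℝ) + 1) * ‖x‖ ^ p.toReal := by
          apply mul_le_mul_of_nonneg_right (by linarith) (by positivity)
  calc (∑ i, |x i| ^ p.toReal) ^ (1 / p.toReal)
      ≤ (((k : ℝ) + 1) * ‖x‖ ^ p.toReal) ^ (1 / p.toReal) :=
        Real.rpow_le_rpow (by positivity) h1 (by positivity)
    _ = ((k : ℝ) + 1) ^ (1 / p.toReal) * ‖x‖ := by
        rw [Real.mul_rpow (by positivity) (by positivity), ← Real.rpow_mul (norm_nonneg _),
          mul_one_div_cancel h.ne', Real.rpow_one]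

theorem pnorm_zero {k : ℕ} {p : ℝ≥0∞} (hp : 1 ≤ p) : pnorm p (0 : Fin k → ℝ) = 0 := by
  apply le_antisymm
  · simpa using pnorm_le hp (0 : Fin k → ℝ)
  · exact (norm_nonneg _).trans (norm_le_pnorm hp _)

theorem eq_zero_of_pnorm {k : ℕ} {p : ℝ≥0∞} (hp : 1 ≤ p) {x : Fin k → ℝ}
    (h : pnorm p x = 0) : x = 0 := by
  have h1 := norm_le_pnorm hp x
  rw [h] at h1
  exact norm_le_zero_iff.1 h1

theorem abs_le_pnorm {k : ℕ} {p : ℝ≥0∞} (hp : 1 ≤ p) (x : Fin k → ℝ) (i : Fin k) :
    |x i| ≤ pnorm p x :=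
  (norm_le_pi_norm x i).trans (norm_le_pnorm hp x)

theorem tendsto_pnorm {k : ℕ} {ps : ℕ → ℝ≥0∞} {p : ℝ≥0∞} (hps1 : ∀ n, 1 ≤ ps n)
    (hps : Tendsto ps atTop (𝓝 p)) {xs : ℕ → Fin k → ℝ} {x : Fin k → ℝ}
    (hx : Tendsto xs atTop (𝓝 x)) :
    Tendsto (fun n => pnorm (ps n) (xs n)) atTop (𝓝 (pnorm p x)) := by
  have hp : 1 ≤ p := ge_of_tendsto' hps hps1
  by_cases hpt : p = ⊤
  · subst hpt
    rw [pnorm_top]
    have h1 : Tendsto (fun n => ((k : ℝ) + 1) ^ ((ps n)⁻¹).toReal * ‖xs n‖) atTop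
        (𝓝 (((k : ℝ) + 1) ^ (0 : ℝ) * ‖x‖)) := by
      have h2 : Tendsto (fun n => ((ps n)⁻¹).toReal) atTop (𝓝 0) := by
        have h3 : Tendsto (fun n => (ps n)⁻¹) atTop (𝓝 (⊤ : ℝ≥0∞)⁻¹) :=
          ((continuous_inv (G := ℝ≥0∞)).tendsto _).comp hps
        rw [ENNReal.inv_top] at h3
        have h4 := (ENNReal.tendsto_toReal ENNReal.zero_ne_top).comp h3
        rw [ENNReal.toReal_zero] at h4
        exact h4
      have hk : (0 : ℝ) < (k : ℝ) + 1 := by positivity
      exact (tendsto_const_nhds.rpow h2 (Or.inl hk.ne')).mul hx.norm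
    rw [Real.rpow_zero, one_mul] at h1
    exact tendsto_of_tendsto_of_tendsto_of_le_of_le hx.norm h1
      (fun n => norm_le_pnorm (hps1 n) (xs n)) (fun n => pnorm_le (hps1 n) (xs n))
  · have hp0 : 0 < p.toReal := ENNReal.toReal_pos (one_pos.trans_le hp).ne' hpt
    have hpr : Tendsto (fun n => (ps n).toReal) atTop (𝓝 p.toReal) :=
      (ENNReal.tendsto_toReal hpt).comp hps
    have h1 : Tendsto (fun n => ∑ i, |xs n i| ^ (ps n).toReal) atTop
        (𝓝 (∑ i, |x i| ^ p.toReal)) := by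
      apply tendsto_finsetSum
      intro i _
      have hxi : Tendsto (fun n => |xs n i|) atTop (𝓝 |x i|) :=
        ((continuous_apply i).tendsto x |>.comp hx).abs
      exact hxi.rpow hpr (Or.inr hp0)
    have h2 := h1.rpow (tendsto_const_nhds (x := (1 : ℝ)) |>.div hpr hp0.ne')
      (Or.inr (by positivity))
    rw [pnorm_fin hp hpt]
    refine h2.congr' ?_
    have h3 : ∀ᶠ n in atTop, ps n ≠ ⊤ := hps.eventually_ne hpt
    filter_upwards [h3] with n hn
    exact (pnorm_fin (hps1 n) hn (xs n)).symm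

/-! ### `f_p(G) ≤ k` and realizability in `ℓ_p^k` -/

theorem pnorm_append {j t : ℕ} {p : ℝ≥0∞} (hp : 1 ≤ p) (x : Fin j → ℝ) :
    pnorm p (Fin.append x (0 : Fin t → ℝ)) = pnorm p x := by
  by_cases hpt : p = ⊤
  · subst hpt
    rw [pnorm_top, pnorm_top]
    apply le_antisymm
    · rw [pi_norm_le_iff_of_nonneg (norm_nonneg _)]
      intro i
      refine Fin.addCases (fun i => ?_) (fun i => ?_) i
      · rw [Fin.append_left]
        exact norm_le_pi_norm x i
      · rw [Fin.append_right]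
        simp
    · rw [pi_norm_le_iff_of_nonneg (norm_nonneg _)]
      intro i
      have h := norm_le_pi_norm (Fin.append x (0 : Fin t → ℝ)) (Fin.castAdd t i)
      rwa [Fin.append_left] at h
  have hp0 : p.toReal ≠ 0 := (ENNReal.toReal_pos (one_pos.trans_le hp).ne' hpt).ne'
  rw [pnorm_fin hp hpt, pnorm_fin hp hpt, Fin.sum_univ_add]
  simp [Fin.append_left, Fin.append_right, Real.zero_rpow hp0]

theorem realizable_mono {b : Bool} {p : ℝ≥0∞} (hp : 1 ≤ p) {j k : ℕ} (hjk : j ≤ k)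
    {G : FinGraph} (h : Realizable b p j G) : Realizable b p k G := by
  obtain ⟨t, rfl⟩ := Nat.exists_eq_add_of_le hjk
  intro e he
  obtain ⟨q, hq⟩ := h e he
  refine ⟨fun v => Fin.append (q v) 0, fun u v huv => ?_⟩
  rw [← hq u v huv, ← pnorm_append (t := t) hp (q u - q v)]
  congr 1
  funext i
  refine Fin.addCases (fun i => ?_) (fun i => ?_) i
  · simp [Fin.append_left]
  · simp [Fin.append_right]

theorem dimLe_iff {b : Bool} {p : ℝ≥0∞} (hp : 1 ≤ p) {k : ℕ} {G : FinGraph} :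
    DimLe b p k G ↔ Realizable b p k G :=
  ⟨fun ⟨_, hj, h⟩ => realizable_mono hp hj h, fun h => ⟨k, le_rfl, h⟩⟩

/-! ### Closedness in `p` -/

theorem walk_bound {V : Type} {G : SimpleGraph V} {k : ℕ} {q : V → Fin k → ℝ} {M : ℝ}
    (h : ∀ u v, G.Adj u v → ∀ i, |q u i - q v i| ≤ M) {u v : V} (w : G.Walk u v) (i : Fin k) :
    |q u i - q v i| ≤ w.length * M := by
  induction w with
  | nil => simp
  | @cons a b c hab w ih =>
    have h1 := h a b hab i
    have h2 : |q a i - q c i| ≤ |q a i - q b i| + |q b i - q c i| := abs_sub_le _ _ _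
    rw [SimpleGraph.Walk.length_cons]
    push_cast
    linarith

theorem limit_realization {k : ℕ} {G : FinGraph} {ps : ℕ → ℝ≥0∞} {p : ℝ≥0∞}
    (hps1 : ∀ n, 1 ≤ ps n) (hps : Tendsto ps atTop (𝓝 p)) {es : ℕ → Fin G.1 → Fin G.1 → ℝ}
    {e : Fin G.1 → Fin G.1 → ℝ} (hes : ∀ u v, Tendsto (fun n => es n u v) atTop (𝓝 (e u v)))
    (hR : ∀ n, ∃ q : Fin G.1 → Fin k → ℝ, ∀ u v, G.2.Adj u v →
      pnorm (ps n) (q u - q v) = es n u v) :
    ∃ q : Fin G.1 → Fin k → ℝ, ∀ u v, G.2.Adj u v → pnorm p (q u - q v) = e u v := by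
  classical
  -- bounds
  have hB : ∀ u v : Fin G.1, ∃ B : ℝ, ∀ n, es n u v ≤ B := by
    intro u v
    obtain ⟨B, hB⟩ := (hes u v).bddAbove_range
    exact ⟨B, fun n => hB ⟨n, rfl⟩⟩
  choose B hB using hB
  set M : ℝ := ∑ u, ∑ v, |B u v| with hM
  have hM0 : 0 ≤ M := Finset.sum_nonneg fun u _ => Finset.sum_nonneg fun v _ => abs_nonneg _
  have hMB : ∀ u v n, es n u v ≤ M := by
    intro u v n
    have h1 : |B u v| ≤ ∑ v, |B u v| :=
      Finset.single_le_sum (f := fun v => |B u v|) (fun _ _ => abs_nonneg _) (Finset.mem_univ v)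
    have h2 : ∑ v, |B u v| ≤ M :=
      Finset.single_le_sum (f := fun u => ∑ v, |B u v|)
        (fun _ _ => Finset.sum_nonneg fun _ _ => abs_nonneg _) (Finset.mem_univ u)
    exact (hB u v n).trans ((le_abs_self _).trans (h1.trans h2))
  choose q hq using hR
  -- normalisation at one vertex of each component
  let root : Fin G.1 → Fin G.1 := fun v => (G.2.connectedComponentMk v).out
  have hroot : ∀ v, G.2.Reachable (root v) v := by
    intro v
    have : G.2.connectedComponentMk (root v) = G.2.connectedComponentMk v :=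
      Quot.out_eq (G.2.connectedComponentMk v)
    exact SimpleGraph.ConnectedComponent.exact this
  let q' : ℕ → Fin G.1 → Fin k → ℝ := fun n v => q n v - q n (root v)
  have hq' : ∀ n u v, G.2.Adj u v → pnorm (ps n) (q' n u - q' n v) = es n u v := by
    intro n u v huv
    have hr : root u = root v := by
      show (G.2.connectedComponentMk u).out = (G.2.connectedComponentMk v).out
      rw [SimpleGraph.ConnectedComponent.sound huv.reachable]
    rw [← hq n u v huv]
    congr 1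
    show (q n u - q n (root u)) - (q n v - q n (root v)) = _
    rw [hr]
    abel
  have hbd : ∀ n v i, |q' n v i| ≤ G.1 * M := by
    intro n v i
    obtain ⟨w, hw⟩ := (hroot v).exists_isPath
    have hlen : w.length < Fintype.card (Fin G.1) := hw.length_lt
    rw [Fintype.card_fin] at hlen
    have h1 : |q n (root v) i - q n v i| ≤ w.length * M := by
      refine walk_bound (G := G.2) (q := q n) (M := M) ?_ w i
      intro a b hab j
      have h2 := abs_le_pnorm (hps1 n) (q n a - q n b) j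
      rw [hq n a b hab] at h2
      exact h2.trans (hMB a b n)
    have h3 : |q' n v i| = |q n (root v) i - q n v i| := by
      show |(q n v - q n (root v)) i| = _
      rw [Pi.sub_apply, abs_sub_comm]
    rw [h3]
    refine h1.trans ?_
    have : (w.length : ℝ) ≤ G.1 := by exact_mod_cast hlen.le
    exact mul_le_mul_of_nonneg_right this hM0
  -- compactness
  have hmem : ∀ n, q' n ∈ Metric.closedBall (0 : Fin G.1 → Fin k → ℝ) (G.1 * M) := by
    intro n
    have hGM : (0 : ℝ) ≤ G.1 * M := by positivity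
    rw [mem_closedBall_zero_iff, pi_norm_le_iff_of_nonneg hGM]
    intro v
    rw [pi_norm_le_iff_of_nonneg hGM]
    intro i
    exact hbd n v i
  obtain ⟨a, -, φ, hφ, ha⟩ := tendsto_subseq_of_bounded Metric.isBounded_closedBall hmem
  refine ⟨a, fun u v huv => ?_⟩
  have h1 : Tendsto (fun n => q' (φ n) u - q' (φ n) v) atTop (𝓝 (a u - a v)) := by
    have hu : Tendsto (fun n => q' (φ n) u) atTop (𝓝 (a u)) :=
      ((continuous_apply u).tendsto a).comp ha
    have hv : Tendsto (fun n => q' (φ n) v) atTop (𝓝 (a v)) :=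
      ((continuous_apply v).tendsto a).comp ha
    exact hu.sub hv
  have h2 := tendsto_pnorm (fun n => hps1 (φ n)) (hps.comp hφ.tendsto_atTop) h1
  have h3 : Tendsto (fun n => es (φ n) u v) atTop (𝓝 (e u v)) :=
    (hes u v).comp hφ.tendsto_atTop
  exact tendsto_nhds_unique h2 (h3.congr fun n => (hq' (φ n) u v huv).symm)

theorem realizable_closed {b : Bool} {k : ℕ} {G : FinGraph} {ps : ℕ → ℝ≥0∞} {p : ℝ≥0∞}
    (hps1 : ∀ n, 1 ≤ ps n) (hps : Tendsto ps atTop (𝓝 p))
    (hR : ∀ n, Realizable b (ps n) k G) : Realizable b p k G := by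
  intro e he
  cases b with
  | true =>
    exact limit_realization hps1 hps (es := fun _ => e) (fun u v => tendsto_const_nhds)
      fun n => hR n e he
  | false =>
    obtain ⟨m, r, hr⟩ := he
    refine limit_realization hps1 hps (es := fun n u v => pnorm (ps n) (r u - r v))
      (fun u v => ?_) fun n => hR n _ ⟨m, r, fun u v => rfl⟩
    rw [hr u v]
    exact tendsto_pnorm hps1 hps tendsto_const_nhds

/-! ### Minors -/

theorem const_of_walk {V : Type} {G : SimpleGraph V} {α : Type} {f : V → α}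
    (h : ∀ u v, G.Adj u v → f u = f v) {u v : V} (w : G.Walk u v) : f u = f v := by
  induction w with
  | nil => rfl
  | cons hab w ih => exact (h _ _ hab).trans ih

theorem realizable_minor {b : Bool} {p : ℝ≥0∞} (hp : 1 ≤ p) {k : ℕ} {H G : FinGraph}
    (hHG : IsMinor H G) (h : Realizable b p k G) : Realizable b p k H := by
  classical
  obtain ⟨φ, hφ, hadj⟩ := hHG
  intro e he
  rcases isEmpty_or_nonempty (Fin H.1) with hemp | ⟨⟨x₀⟩⟩
  · exact ⟨fun x => isEmptyElim x, fun x => isEmptyElim x⟩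
  let ψ : Fin G.1 → Fin H.1 := fun v => (φ v).getD x₀
  have hψ : ∀ v x, φ v = some x → ψ v = x := by
    intro v x hv
    show (φ v).getD x₀ = x
    rw [hv]
    rfl
  have he' : (fun u v => e (ψ u) (ψ v)) ∈ Lengths b p G.1 := by
    cases b with
    | true => exact ⟨fun u => he.1 _, fun u v => he.2.1 _ _, fun u v w => he.2.2 _ _ _⟩
    | false =>
      obtain ⟨m, r, hr⟩ := he
      exact ⟨m, fun v => r (ψ v), fun u v => hr _ _⟩
  have he0 : ∀ x, e x x = 0 := by
    cases b with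
    | true => exact he.1
    | false =>
      obtain ⟨m, r, hr⟩ := he
      intro x
      rw [hr, sub_self, pnorm_zero hp]
  obtain ⟨q, hq⟩ := h _ he'
  have hrep : ∀ x : Fin H.1, ∃ v, φ v = some x := by
    intro x
    obtain ⟨v, hv⟩ := (hφ x).nonempty
    exact ⟨v, hv⟩
  choose rep hrep using hrep
  have hconst : ∀ x v, φ v = some x → q v = q (rep x) := by
    intro x v hv
    obtain ⟨w⟩ := (hφ x).preconnected ⟨v, hv⟩ ⟨rep x, hrep x⟩
    refine const_of_walk (G := G.2.induce {v | φ v = some x}) (f := fun a => q a.1) ?_ w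
    intro a c hac
    have hac' : G.2.Adj a.1 c.1 := hac
    have h1 := hq a.1 c.1 hac'
    have ha : ψ a.1 = x := hψ _ _ a.2
    have hc : ψ c.1 = x := hψ _ _ c.2
    rw [ha, hc, he0] at h1
    exact sub_eq_zero.1 (eq_zero_of_pnorm hp h1)
  refine ⟨fun x => q (rep x), fun x y hxy => ?_⟩
  obtain ⟨v, v', hv, hv', hvv⟩ := hadj x y hxy
  have h1 := hq v v' hvv
  rw [hψ v x hv, hψ v' y hv'] at h1
  rw [← h1, hconst x v hv, hconst y v' hv']

theorem isMinor_refl (G : FinGraph) : IsMinor G G := by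
  refine ⟨fun v => some v, fun h => ?_, fun h h' hh => ⟨h, h', rfl, rfl, hh⟩⟩
  have : Nonempty ({v | (some v : Option (Fin G.1)) = some h} : Set (Fin G.1)) := ⟨⟨h, rfl⟩⟩
  refine ⟨fun a b => ?_⟩
  have ha : a.1 = h := Option.some.inj a.2
  have hb : b.1 = h := Option.some.inj b.2
  have : a = b := Subtype.ext (ha.trans hb.symm)
  rw [this]

theorem isMinor_trans {K H G : FinGraph} (hKH : IsMinor K H) (hHG : IsMinor H G) :
    IsMinor K G := by
  obtain ⟨φ, hφ, hφa⟩ := hHG
  obtain ⟨ψ, hψ, hψa⟩ := hKH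
  refine ⟨fun v => (φ v).bind ψ, fun x => ?_, fun x y hxy => ?_⟩
  · set S : Set (Fin G.1) := {v | (φ v).bind ψ = some x} with hS
    have hmem : ∀ v y, φ v = some y → ψ y = some x → v ∈ S := by
      intro v y h1 h2
      show (φ v).bind ψ = some x
      rw [h1]
      exact h2
    have hbase : ∀ y, ψ y = some x → ∀ a b (ha : a ∈ S) (hb : b ∈ S), φ a = some y →
        φ b = some y → (G.2.induce S).Reachable ⟨a, ha⟩ ⟨b, hb⟩ := by
      intro y hy a b ha hb hay hby
      have hle : {v | φ v = some y} ⊆ S := fun v hv => hmem v y hv hy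
      have h1 := (hφ y).preconnected ⟨a, hay⟩ ⟨b, hby⟩
      exact h1.map (SimpleGraph.induceHomOfLE G.2 hle).toHom
    have hstep : ∀ (y z : ({y | ψ y = some x} : Set (Fin H.1)))
        (_ : (H.2.induce {y | ψ y = some x}).Walk y z),
        ∀ a b (ha : a ∈ S) (hb : b ∈ S), φ a = some y.1 → φ b = some z.1 →
        (G.2.induce S).Reachable ⟨a, ha⟩ ⟨b, hb⟩ := by
      intro y z w
      induction w with
      | @nil y => exact fun a b ha hb => hbase y.1 y.2 a b ha hb
      | @cons y y' z hyy w ih =>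
        intro a b ha hb hay hbz
        have hyy' : H.2.Adj y.1 y'.1 := hyy
        obtain ⟨v, v', hv, hv', hvv⟩ := hφa _ _ hyy'
        have hvS : v ∈ S := hmem v _ hv y.2
        have hvS' : v' ∈ S := hmem v' _ hv' y'.2
        have h1 := hbase y.1 y.2 a v ha hvS hay hv
        have h2 : (G.2.induce S).Adj ⟨v, hvS⟩ ⟨v', hvS'⟩ := hvv
        exact h1.trans (h2.reachable.trans (ih v' b hvS' hb hv' hbz))
    have hne : Nonempty S := by
      obtain ⟨y, hy⟩ := (hψ x).nonempty
      obtain ⟨v, hv⟩ := (hφ y).nonempty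
      exact ⟨⟨v, hmem v y hv hy⟩⟩
    have := hne
    refine ⟨fun a b => ?_⟩
    obtain ⟨a, ha⟩ := a
    obtain ⟨b, hb⟩ := b
    have ha' : (φ a).bind ψ = some x := ha
    have hb' : (φ b).bind ψ = some x := hb
    rw [Option.bind_eq_some_iff] at ha' hb'
    obtain ⟨y, hay, hy⟩ := ha'
    obtain ⟨z, hbz, hz⟩ := hb'
    obtain ⟨w⟩ := (hψ x).preconnected ⟨y, hy⟩ ⟨z, hz⟩
    exact hstep _ _ w a b ha hb hay hbz
  · obtain ⟨u, u', hu, hu', huu⟩ := hψa x y hxy
    obtain ⟨v, v', hv, hv', hvv⟩ := hφa u u' huu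
    refine ⟨v, v', ?_, ?_, hvv⟩
    · show (φ v).bind ψ = some x
      rw [hv]; exact hu
    · show (φ v').bind ψ = some y
      rw [hv']; exact hu'

theorem isMinor_card {H G : FinGraph} (h : IsMinor H G) : H.1 ≤ G.1 := by
  obtain ⟨φ, hφ, -⟩ := h
  have hrep : ∀ x : Fin H.1, ∃ v, φ v = some x := by
    intro x
    obtain ⟨v, hv⟩ := (hφ x).nonempty
    exact ⟨v, hv⟩
  choose rep hrep using hrep
  have hinj : Function.Injective rep := by
    intro x y hxy
    have h1 := hrep x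
    rw [hxy, hrep y] at h1
    exact (Option.some.inj h1).symm
  simpa using Fintype.card_le_of_injective rep hinj

theorem finite_le (n : ℕ) : {H : FinGraph | H.1 ≤ n}.Finite := by
  have hfin : ∀ m : ℕ, Finite (SimpleGraph (Fin m)) := fun m =>
    Finite.of_injective SimpleGraph.Adj fun a b h => SimpleGraph.ext h
  refine (Set.finite_range (fun x : Σ m : Fin (n + 1), SimpleGraph (Fin m.1) =>
    (⟨x.1.1, x.2⟩ : FinGraph))).subset ?_
  rintro ⟨m, g⟩ hm
  exact ⟨⟨⟨m, Nat.lt_succ_of_le hm⟩, g⟩, rfl⟩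

theorem countable_finGraph : Countable FinGraph := by
  have h : (Set.univ : Set FinGraph) ⊆ ⋃ n : ℕ, {H : FinGraph | H.1 ≤ n} := by
    intro H _
    exact mem_iUnion.2 ⟨H.1, le_refl H.1⟩
  have h2 : (Set.univ : Set FinGraph).Countable :=
    (countable_iUnion fun n => (finite_le n).countable).mono h
  exact Set.countable_univ_iff.1 h2

/-! ### The excluded minors determine the class -/

theorem exists_excluded {b : Bool} {k : ℕ} {p : ℝ≥0∞} {G : FinGraph}
    (hG : ¬ DimLe b p k G) : ∃ H, IsMinor H G ∧ H ∈ ex b p k := by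
  let T : Type := {H : FinGraph // IsMinor H G}
  have hT : Finite T := ((finite_le G.1).subset fun H (hH : IsMinor H G) =>
    isMinor_card hH).to_subtype
  let r : T → T → Prop := fun a b => IsMinor a.1 b.1 ∧ ¬ IsMinor b.1 a.1
  have htr : IsTrans T r := ⟨fun a b c hab hbc =>
    ⟨isMinor_trans hab.1 hbc.1, fun h => hbc.2 (isMinor_trans h hab.1)⟩⟩
  have hir : Std.Irrefl r := ⟨fun a h => h.2 h.1⟩
  have hwf : WellFounded r := Finite.wellFounded_of_trans_of_irrefl r
  obtain ⟨H, hH, hmin⟩ := hwf.has_min {a : T | ¬ DimLe b p k a.1} ⟨⟨G, isMinor_refl G⟩, hG⟩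
  refine ⟨H.1, H.2, hH, fun H' h1 h2 => ?_⟩
  by_contra h3
  exact hmin ⟨H', isMinor_trans h1 H.2⟩ h3 ⟨h1, h2⟩

theorem ex_eq_iff {b : Bool} {k : ℕ} {p q : ℝ≥0∞} (hp : 1 ≤ p) (hq : 1 ≤ q) :
    ex b p k = ex b q k ↔ ∀ G, DimLe b p k G ↔ DimLe b q k G := by
  have key : ∀ a c : ℝ≥0∞, 1 ≤ a → 1 ≤ c → ex b a k = ex b c k → ∀ G, DimLe b a k G →
      DimLe b c k G := by
    intro a c ha hc hab G hG
    by_contra hcon
    obtain ⟨H, hHG, hH⟩ := exists_excluded hcon
    rw [← hab] at hH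
    exact hH.1 ((dimLe_iff ha).2 (realizable_minor ha hHG ((dimLe_iff ha).1 hG)))
  constructor
  · intro h G
    exact ⟨key p q hp hq h G, key q p hq hp h.symm G⟩
  · intro h
    ext G
    simp only [ex, mem_ofPred_eq, h]

/-! ### The sets `{p : f_p(G) ≤ k}` -/

theorem isClosed_dimLe (b : Bool) (k : ℕ) (G : FinGraph) :
    IsClosed {p : ℝ≥0∞ | 1 ≤ p ∧ DimLe b p k G} := by
  apply IsSeqClosed.isClosed
  intro xs x hxs hx
  have h1 : 1 ≤ x := ge_of_tendsto' hx fun n => (hxs n).1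
  exact ⟨h1, (dimLe_iff h1).2 (realizable_closed (fun n => (hxs n).1) hx fun n =>
    (dimLe_iff (hxs n).1).1 (hxs n).2)⟩

theorem decide_finite (b : Bool) (k : ℕ) {S : Set FinGraph} (hS : S.Finite) {W : Set ℝ≥0∞}
    (hW : IsOpen W) (hne : (W ∩ Ici 1).Nonempty) :
    ∃ W' ⊆ W, IsOpen W' ∧ (W' ∩ Ici 1).Nonempty ∧ ∀ G ∈ S,
      (∀ p ∈ W' ∩ Ici 1, DimLe b p k G) ∨ ∀ p ∈ W' ∩ Ici 1, ¬ DimLe b p k G := by
  induction S, hS using Set.Finite.induction_on with
  | empty => exact ⟨W, Subset.rfl, hW, hne, fun G hG => absurd hG (notMem_empty G)⟩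
  | @insert G S _ _ ih =>
    obtain ⟨W', hWW, hW', hne', hdec⟩ := ih
    by_cases hall : ∀ p ∈ W' ∩ Ici 1, DimLe b p k G
    · refine ⟨W', hWW, hW', hne', fun H hH => ?_⟩
      rcases mem_insert_iff.1 hH with rfl | hH
      · exact Or.inl hall
      · exact hdec H hH
    · push Not at hall
      obtain ⟨p, hp, hpG⟩ := hall
      refine ⟨W' \ {p : ℝ≥0∞ | 1 ≤ p ∧ DimLe b p k G}, sdiff_subset.trans hWW,
        hW'.sdiff (isClosed_dimLe b k G), ⟨p, ⟨hp.1, fun h => hpG h.2⟩, hp.2⟩, fun H hH => ?_⟩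
      rcases mem_insert_iff.1 hH with rfl | hH
      · exact Or.inr fun q hq h => hq.1.2 ⟨hq.2, h⟩
      · rcases hdec H hH with h | h
        · exact Or.inl fun q hq => h q ⟨hq.1.1, hq.2⟩
        · exact Or.inr fun q hq => h q ⟨hq.1.1, hq.2⟩

/-- **Structure of the classes of equal excluded minors**, for every `k`:
(1) for every graph `G` the set of the `p` in `[1, ∞]` with `f_p(G) ≤ k` is closed;
(2) for every `n`, every nonempty relatively open subset of `[1, ∞]` has a nonempty relatively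
open subset on which the list of the excluded minors with at most `n` vertices is constant;
(3) every class is nowhere dense or comeagre in an interval. -/
theorem result (file : Bool) (k : ℕ) :
    (∀ G : FinGraph, IsClosed {p : ℝ≥0∞ | 1 ≤ p ∧ DimLe file p k G}) ∧
    (∀ (n : ℕ) (W : Set ℝ≥0∞), IsOpen W → (W ∩ Ici 1).Nonempty →
      ∃ W' ⊆ W, IsOpen W' ∧ (W' ∩ Ici 1).Nonempty ∧
        ∀ p ∈ W' ∩ Ici 1, ∀ q ∈ W' ∩ Ici 1, exUpTo file n p k = exUpTo file n q k) ∧
    ∀ p : ℝ≥0∞, 1 ≤ p → IsNowhereDense (cls file k p) ∨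
      ∃ a b : ℝ≥0∞, 1 ≤ a ∧ a < b ∧ IsMeagre (Icc a b \ cls file k p) := by
  refine ⟨isClosed_dimLe file k, fun n W hW hne => ?_, fun p hp => ?_⟩
  · obtain ⟨W', hWW, hW', hne', hdec⟩ := decide_finite file k (finite_le n) hW hne
    refine ⟨W', hWW, hW', hne', fun p hp q hq => ?_⟩
    have hiff : ∀ G : FinGraph, G.1 ≤ n → (DimLe file p k G ↔ DimLe file q k G) := by
      intro G hG
      rcases hdec G hG with h | h
      · exact ⟨fun _ => h q hq, fun _ => h p hp⟩
      · exact ⟨fun h' => absurd h' (h p hp), fun h' => absurd h' (h q hq)⟩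
    have hiff' : ∀ G : FinGraph, G.1 ≤ n → (G ∈ ex file p k ↔ G ∈ ex file q k) := by
      intro G hG
      have h1 : ∀ H, IsMinor H G → (DimLe file p k H ↔ DimLe file q k H) := fun H hH =>
        hiff H ((isMinor_card hH).trans hG)
      constructor
      · rintro ⟨h2, h3⟩
        exact ⟨fun h => h2 ((hiff G hG).2 h), fun H hH hn => (h1 H hH).1 (h3 H hH hn)⟩
      · rintro ⟨h2, h3⟩
        exact ⟨fun h => h2 ((hiff G hG).1 h), fun H hH hn => (h1 H hH).2 (h3 H hH hn)⟩
    ext G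
    constructor
    · rintro ⟨h1, h2⟩
      exact ⟨(hiff' G h2).1 h1, h2⟩
    · rintro ⟨h1, h2⟩
      exact ⟨(hiff' G h2).2 h1, h2⟩
  · by_cases hnd : IsNowhereDense (cls file k p)
    · exact Or.inl hnd
    right
    rw [IsNowhereDense, ← ne_eq, ← nonempty_iff_ne_empty] at hnd
    set C : Set ℝ≥0∞ := cls file k p with hC
    set W : Set ℝ≥0∞ := interior (closure C) with hWdef
    have hWo : IsOpen W := isOpen_interior
    have hcl : closure C ⊆ Ici 1 := closure_minimal (fun q hq => hq.1) isClosed_Ici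
    have hW1 : ∀ q ∈ W, 1 ≤ q := fun q hq => hcl (interior_subset hq)
    -- graphs realizable at `p` are realizable on `W`
    have hin : ∀ G, DimLe file p k G → ∀ q ∈ W, DimLe file q k G := by
      intro G hG q hq
      have h1 : closure C ⊆ {p : ℝ≥0∞ | 1 ≤ p ∧ DimLe file p k G} :=
        closure_minimal (fun q hq => ⟨hq.1, ((ex_eq_iff hq.1 hp).1 hq.2 G).2 hG⟩)
          (isClosed_dimLe file k G)
      exact (h1 (interior_subset hq)).2
    -- the others are realizable on a nowhere dense subset of `W` only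
    have hout : ∀ G, ¬ DimLe file p k G →
        IsNowhereDense ({p : ℝ≥0∞ | 1 ≤ p ∧ DimLe file p k G} ∩ W) := by
      intro G hG
      rw [IsNowhereDense, eq_empty_iff_forall_notMem]
      intro x hx
      set A : Set ℝ≥0∞ := {p : ℝ≥0∞ | 1 ≤ p ∧ DimLe file p k G} with hA
      have h1 : closure (A ∩ W) ⊆ A := closure_minimal inter_subset_left (isClosed_dimLe file k G)
      have h2 : x ∈ closure (A ∩ W) := interior_subset hx
      have h3 : x ∈ closure W := closure_mono inter_subset_right h2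
      obtain ⟨y, hy1, hy2⟩ := mem_closure_iff.1 h3 _ isOpen_interior hx
      have h4 : y ∈ closure C := interior_subset hy2
      obtain ⟨z, hz1, hz2⟩ := mem_closure_iff.1 h4 _ isOpen_interior hy1
      have h5 : z ∈ A := h1 (interior_subset hz1)
      exact hG (((ex_eq_iff hz2.1 hp).1 hz2.2 G).1 h5.2)
    obtain ⟨q, hq⟩ := hnd
    have hq1 : 1 ≤ q := hW1 q hq
    obtain ⟨l, hl, hlq⟩ := exists_Ioc_subset_of_mem_nhds (hWo.mem_nhds hq)
      ⟨0, one_pos.trans_le hq1⟩
    obtain ⟨a, hla, haq⟩ := exists_between hl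
    have haW : Icc a q ⊆ W := fun y hy => hlq ⟨hla.trans_le hy.1, hy.2⟩
    refine ⟨a, q, hW1 a (haW ⟨le_rfl, haq.le⟩), haq, ?_⟩
    have hcount := countable_finGraph
    have hsub : Icc a q \ C ⊆ ⋃ G : {G : FinGraph // ¬ DimLe file p k G},
        ({p : ℝ≥0∞ | 1 ≤ p ∧ DimLe file p k G.1} ∩ W) := by
      rintro x ⟨hx, hxC⟩
      have hxW := haW hx
      by_contra hcon
      apply hxC
      refine ⟨hW1 x hxW, (ex_eq_iff (hW1 x hxW) hp).2 fun G => ⟨fun h => ?_, fun h =>
        hin G h x hxW⟩⟩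
      by_contra hG
      exact hcon (mem_iUnion.2 ⟨⟨G, hG⟩, ⟨⟨hW1 x hxW, h⟩, hxW⟩⟩)
    exact (isMeagre_iUnion fun G : {G : FinGraph // ¬ DimLe file p k G} =>
      (hout G.1 G.2).isMeagre).mono hsub

end Pool.Agent.Results.MP_101edf_co.ClassStructure
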